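import Pool.Agent.Y355.RF.Rel

set_option autoImplicit false

/-!
# Free algebras in varieties of nilpotent associative algebras are logically homogeneous

The theorem holds for the free algebras of finite rank in every class of nilpotent associative
algebras closed under subalgebras (in particular in every variety of nilpotent algebras) which
either contains all algebras of nilpotency index three or consists of algebras with zero
multiplication. The free `n`-nilpotent and the free `n`-solvable algebras are special cases.
-/

namespace Pool.Agent.Results.MP_3d7de8_lc.AllVarieties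

open FirstOrder Pool.Agent.Helper771.FreeNilp Pool.Agent.Y355.RF

universe u

/-- A class of associative `K`-algebras. -/
abbrev AlgClass (K : Type u) [Field K] : Type (u + 1) :=
  (B : Type u) → [NonUnitalRing B] → [Module K B] → Prop

/-- `F` with the generators `x 0, ..., x (r - 1)` is the free algebra of rank `r` in the class `V`
(universal property). -/
structure IsFreeIn (K : Type u) [Field K] (V : AlgClass K) (r : ℕ) (F : Type u) [NonUnitalRing F]
    [Module K F] (x : Fin r → F) : Prop where
  mem : V F
  univ : ∀ (B : Type u) [NonUnitalRing B] [Module K B] [IsScalarTower K B B] [SMulCommClass K B B],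
    V B → ∀ y : Fin r → B, ∃! f : F →ₙₐ[K] B, ∀ i, f (x i) = y i

/-- Admissible classes: all members are nilpotent of index `n`, subalgebras of members are
members, and either all algebras of nilpotency index `3` are members or all members have zero
multiplication (nilpotency index `2`). -/
structure Admissible (K : Type u) [Field K] (V : AlgClass K) (n : ℕ) : Prop where
  nilp : ∀ (B : Type u) [NonUnitalRing B] [Module K B] [IsScalarTower K B B] [SMulCommClass K B B],
    V B → IsNilp K B n
  sub : ∀ (B : Type u) [NonUnitalRing B] [Module K B] [IsScalarTower K B B] [SMulCommClass K B B]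
    (S : NonUnitalSubalgebra K B), V B → V S
  size : (∀ (B : Type u) [NonUnitalRing B] [Module K B] [IsScalarTower K B B]
      [SMulCommClass K B B], IsNilp K B 3 → V B) ∨
    (∀ (B : Type u) [NonUnitalRing B] [Module K B] [IsScalarTower K B B]
      [SMulCommClass K B B], V B → IsNilp K B 2)

section

variable {K : Type u} [Field K] {V : AlgClass K} {n r : ℕ} {F : Type u} [NonUnitalRing F]
  [Module K F] [IsScalarTower K F F] [SMulCommClass K F F] {x : Fin r → F}

theorem adjoin_top (hV : Admissible K V n) (hF : IsFreeIn K V r F x) :
    NonUnitalAlgebra.adjoin K (Set.range x) = ⊤ := by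
  set S := NonUnitalAlgebra.adjoin K (Set.range x) with hS
  have hx : ∀ i, x i ∈ S := fun i => NonUnitalAlgebra.subset_adjoin K ⟨i, rfl⟩
  obtain ⟨f, hf, _⟩ := hF.univ S (hV.sub F S hF.mem) (fun i => ⟨x i, hx i⟩)
  obtain ⟨g, _, hu⟩ := hF.univ F hF.mem x
  have h1 : (NonUnitalSubalgebraClass.subtype S).comp f = NonUnitalAlgHom.id K F := by
    refine (hu _ ?_).trans (hu (NonUnitalAlgHom.id K F) (fun i => rfl)).symm
    intro i
    simp [hf i]
  rw [eq_top_iff]
  intro z _
  have h2 : (NonUnitalSubalgebraClass.subtype S) (f z) = z := by
    have := DFunLike.congr_fun h1 z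
    simpa using this
  rw [← h2]
  exact (f z).2

theorem exists_term' (hgen : NonUnitalAlgebra.adjoin K (Set.range x) = ⊤) (z : F) :
    ∃ t : (algLang K).Term (Fin r), t.realize x = z := by
  have hz : z ∈ NonUnitalAlgebra.adjoin K (Set.range x) := by
    rw [hgen]; trivial
  induction hz using NonUnitalAlgebra.adjoin_induction with
  | mem y hy =>
    obtain ⟨i, rfl⟩ := hy
    exact ⟨Language.Term.var i, rfl⟩
  | add a b _ _ ha hb =>
    obtain ⟨s, rfl⟩ := ha
    obtain ⟨t, rfl⟩ := hb
    exact ⟨Language.Term.func (l := 2) (AlgFn.add : AlgFn K 2) ![s, t], rfl⟩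
  | zero => exact ⟨Language.Term.func (l := 0) (AlgFn.zero : AlgFn K 0) ![], rfl⟩
  | mul a b _ _ ha hb =>
    obtain ⟨s, rfl⟩ := ha
    obtain ⟨t, rfl⟩ := hb
    exact ⟨Language.Term.func (l := 2) (AlgFn.mul : AlgFn K 2) ![s, t], rfl⟩
  | smul c a _ ha =>
    obtain ⟨s, rfl⟩ := ha
    exact ⟨Language.Term.func (l := 1) (AlgFn.smul c : AlgFn K 1) ![s], rfl⟩

theorem homog (hn : 1 ≤ n) (hV : Admissible K V n) (hF : IsFreeIn K V r F x) :
    LogicallyHomogeneous K F := by
  have hgen := adjoin_top hV hF
  rcases hV.size with hbig | hsmall
  · have hT : V (TestAlg K r) := hbig _ (testAlg_nilp K r le_rfl)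
    have hR : RelFree K n r F x :=
      { nilp := hV.nilp F hF.mem
        gen := exists_term' hgen
        free := fun y => (hF.univ F hF.mem y).exists
        test := (hF.univ (TestAlg K r) hT _).exists }
    exact hR.homogeneous hn
  · have h0 : ∀ a b : F, a * b = 0 := by
      intro a b
      have h1 : a * b ∈ algPow K F (1 + 1) := mul_mem_algPow le_rfl le_rfl
        (by rw [algPow_one]; trivial) (by rw [algPow_one]; trivial)
      have h2 : algPow K F 2 = ⊥ := hsmall F hF.mem
      rw [show 1 + 1 = 2 from rfl, h2] at h1
      simpa using h1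
    have hfin : Module.Finite K F := by
      have hspan : Submodule.span K (Set.range x) = ⊤ := by
        rw [eq_top_iff]
        intro z _
        have hz : z ∈ NonUnitalAlgebra.adjoin K (Set.range x) := by
          rw [hgen]; trivial
        induction hz using NonUnitalAlgebra.adjoin_induction with
        | mem y hy => exact Submodule.subset_span hy
        | add a b _ _ ha hb => exact Submodule.add_mem _ (ha trivial) (hb trivial)
        | zero => exact Submodule.zero_mem _
        | mul a b _ _ ha hb => rw [h0]; exact Submodule.zero_mem _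
        | smul c a _ ha => exact Submodule.smul_mem _ c (ha trivial)
      exact ⟨hspan ▸ Submodule.fg_span (Set.finite_range x)⟩
    exact homogeneous_of_mul_eq_zero h0

end

/-- **Logical homogeneity of relatively free nilpotent associative algebras.**
(1) For every field `K`, every admissible class `V` of nilpotent associative algebras and every
`r`, the free algebra of rank `r` in `V` is logically homogeneous.
(2), (3) In particular the free `n`-nilpotent and the free `n`-solvable associative algebras of
rank `r` are logically homogeneous (full answers to Q1 and Q2). -/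
theorem result :
    (∀ (K : Type u) [Field K] (V : AlgClass K) (n r : ℕ), 1 ≤ n → Admissible K V n →
      ∀ (F : Type u) [NonUnitalRing F] [Module K F] [IsScalarTower K F F] [SMulCommClass K F F]
        (x : Fin r → F), IsFreeIn K V r F x → LogicallyHomogeneous K F) ∧
    (∀ (K : Type u) [Field K] (n r : ℕ), 1 ≤ n →
      ∀ (F : Type u) [NonUnitalRing F] [Module K F] [IsScalarTower K F F] [SMulCommClass K F F]
        (x : Fin r → F), IsFreeNilp K n r F x → LogicallyHomogeneous K F) ∧
    (∀ (K : Type u) [Field K] (n r : ℕ),
      ∀ (F : Type u) [NonUnitalRing F] [Module K F] [IsScalarTower K F F] [SMulCommClass K F F]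
        (x : Fin r → F), IsFreeSolv K n r F x → LogicallyHomogeneous K F) := by
  have h2 : ∀ (K : Type u) [Field K] (n r : ℕ), 1 ≤ n →
      ∀ (F : Type u) [NonUnitalRing F] [Module K F] [IsScalarTower K F F] [SMulCommClass K F F]
        (x : Fin r → F), IsFreeNilp K n r F x → LogicallyHomogeneous K F := by
    intro K _ n r hn F _ _ _ _ x hF
    refine homog (V := fun B _ _ => IsNilp K B n) (x := x) hn ?_ ⟨hF.1, hF.2⟩
    refine ⟨fun B _ _ _ _ h => h, fun B _ _ _ _ S h => h.subalgebra S, ?_⟩
    by_cases h3 : 3 ≤ n
    · left
      intro B _ _ _ _ h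
      have := algPow_anti (K := K) (A := B) (by norm_num : 1 ≤ 3) h3
      have hB : algPow K B 3 = ⊥ := h
      rw [hB] at this
      exact eq_bot_iff.2 this
    · right
      intro B _ _ _ _ h
      have := algPow_anti (K := K) (A := B) hn (by omega : n ≤ 2)
      have hB : algPow K B n = ⊥ := h
      rw [hB] at this
      exact eq_bot_iff.2 this
  refine ⟨?_, h2, ?_⟩
  · intro K _ V n r hn hV F _ _ _ _ x hF
    exact homog hn hV hF
  · intro K _ n r F _ _ _ _ x hF
    exact h2 K (2 ^ n) r Nat.one_le_two_pow F x hF.isFreeNilp

end Pool.Agent.Results.MP_3d7de8_lc.AllVarieties
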