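import Pool.Agent.Helper771.FreeNilp

set_option autoImplicit false

/-!
# Relatively free nilpotent associative algebras are logically homogeneous

The arguments are those of `Helper771.FreeNilp`, under the weaker hypothesis `RelFree`: the algebra
is nilpotent and relatively free (free in the variety it generates), and it satisfies no identity
of degree two modulo products of three elements.
-/

namespace Pool.Agent.Y355.RF

open FirstOrder Pool.Agent.Helper771.FreeNilp

universe u v w

/-- `F` is nilpotent (`F ^ n = 0`), generated by `x 0, ..., x (r - 1)`, free on them in the variety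
which it generates (every map of the generators into `F` extends to an endomorphism), and it has no
identities of degree two: it maps homomorphically onto the free algebra of nilpotency index three,
with `x i` going to the free generators. -/
structure RelFree (K : Type u) [Field K] (n r : ℕ) (F : Type u) [NonUnitalRing F] [Module K F]
    (x : Fin r → F) : Prop where
  nilp : IsNilp K F n
  gen : ∀ z : F, ∃ t : (algLang K).Term (Fin r), t.realize x = z
  free : ∀ y : Fin r → F, ∃ σ : F →ₙₐ[K] F, ∀ i, σ (x i) = y i
  test : ∃ h : F →ₙₐ[K] TestAlg K r, ∀ i, h (x i) = ⟨Pi.single i 1, 0⟩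

variable {K : Type u} [Field K] {n r : ℕ} {F : Type u} [NonUnitalRing F] [Module K F]
  [IsScalarTower K F F] [SMulCommClass K F F] {x : Fin r → F}

/-- the values of terms at the generators lie in the generated subalgebra -/
theorem term_mem (t : (algLang K).Term (Fin r)) :
    t.realize x ∈ NonUnitalAlgebra.adjoin K (Set.range x) := by
  induction t with
  | var a => exact NonUnitalAlgebra.subset_adjoin K ⟨a, rfl⟩
  | @func l f ts ih =>
    match l, f with
    | _, AlgFn.zero => exact (NonUnitalAlgebra.adjoin K (Set.range x)).zero_mem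
    | _, AlgFn.add => exact (NonUnitalAlgebra.adjoin K (Set.range x)).add_mem (ih 0) (ih 1)
    | _, AlgFn.neg => exact neg_mem (ih 0)
    | _, AlgFn.mul => exact (NonUnitalAlgebra.adjoin K (Set.range x)).mul_mem (ih 0) (ih 1)
    | _, AlgFn.smul c =>
      exact (NonUnitalAlgebra.adjoin K (Set.range x)).toSubmodule.smul_mem c (ih 0)

theorem RelFree.adjoin_eq_top (hF : RelFree K n r F x) :
    NonUnitalAlgebra.adjoin K (Set.range x) = ⊤ := by
  rw [eq_top_iff]
  intro z _
  obtain ⟨t, rfl⟩ := hF.gen z
  exact term_mem t

/-- Every element is a linear combination of the generators plus an element of `∑ x_i F`. -/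
theorem RelFree.exists_repr (hF : RelFree K n r F x) (z : F) :
    ∃ (c : Fin r → K) (w : Fin r → F), z = ∑ i, c i • x i + ∑ i, x i * w i := by
  have hz : z ∈ NonUnitalAlgebra.adjoin K (Set.range x) := by
    rw [hF.adjoin_eq_top]; trivial
  induction hz using NonUnitalAlgebra.adjoin_induction with
  | mem y hy =>
    obtain ⟨i, rfl⟩ := hy
    refine ⟨Pi.single i 1, 0, ?_⟩
    simp [Pi.single_apply]
  | add a b _ _ ha hb =>
    obtain ⟨c, w, rfl⟩ := ha
    obtain ⟨c', w', rfl⟩ := hb
    refine ⟨c + c', w + w', ?_⟩
    simp only [Pi.add_apply, add_smul, mul_add, Finset.sum_add_distrib]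
    abel
  | zero => exact ⟨0, 0, by simp⟩
  | mul a b _ _ ha hb =>
    obtain ⟨c, w, rfl⟩ := ha
    refine ⟨0, fun i => c i • b + w i * b, ?_⟩
    simp only [add_mul, Finset.sum_mul, mul_add, Finset.sum_add_distrib, Pi.zero_apply, zero_smul,
      Finset.sum_const_zero, zero_add, mul_assoc, smul_mul_assoc, mul_smul_comm]
  | smul t a _ ha =>
    obtain ⟨c, w, rfl⟩ := ha
    refine ⟨t • c, t • w, ?_⟩
    simp only [smul_add, Finset.smul_sum, Pi.smul_apply, smul_eq_mul, mul_smul, mul_smul_comm]

/-- The free nilpotent algebra is finite-dimensional. -/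
theorem RelFree.finite (hF : RelFree K n r F x) (hn : 1 ≤ n) : Module.Finite K F := by
  have key : ∀ k : ℕ, 1 ≤ k → ∃ G : Submodule K F, G.FG ∧ G ⊔ algPow K F k = ⊤ := by
    intro k hk
    induction k, hk using Nat.le_induction with
    | base => exact ⟨⊥, Submodule.fg_bot, by rw [algPow_one]; simp⟩
    | succ k hk ih =>
      obtain ⟨G, hG, hG'⟩ := ih
      refine ⟨Submodule.span K (Set.range x) ⊔ ⨆ i, G.map (LinearMap.mulLeft K (x i)), ?_, ?_⟩
      · refine Submodule.FG.sup (Submodule.fg_span (Set.finite_range x)) ?_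
        exact Submodule.fg_iSup _ fun i => hG.map _
      · rw [eq_top_iff]
        intro z _
        obtain ⟨c, w, rfl⟩ := hF.exists_repr z
        refine Submodule.add_mem _ ?_ ?_
        · refine Submodule.sum_mem _ fun i _ => ?_
          refine Submodule.mem_sup_left (Submodule.mem_sup_left ?_)
          exact Submodule.smul_mem _ _ (Submodule.subset_span ⟨i, rfl⟩)
        · refine Submodule.sum_mem _ fun i _ => ?_
          have hw : w i ∈ G ⊔ algPow K F k := by rw [hG']; trivial
          obtain ⟨g, hg, t, ht, hgt⟩ := Submodule.mem_sup.1 hw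
          rw [← hgt, mul_add]
          refine Submodule.add_mem _ ?_ ?_
          · refine Submodule.mem_sup_left (Submodule.mem_sup_right ?_)
            exact Submodule.mem_iSup_of_mem i ⟨g, hg, rfl⟩
          · refine Submodule.mem_sup_right ?_
            rw [algPow_succ hk]
            exact mul_mem_spanMul trivial ht
  obtain ⟨G, hG, hG'⟩ := key n hn
  have h0 : algPow K F n = ⊥ := hF.nilp
  rw [h0, sup_bot_eq] at hG'
  exact ⟨hG' ▸ hG⟩

/-- A surjective endomorphism is bijective. -/
theorem RelFree.bijective (hF : RelFree K n r F x) (hn : 1 ≤ n) (σ : F →ₙₐ[K] F)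
    (hσ : Function.Surjective σ) : Function.Bijective σ := by
  have := hF.finite hn
  have h : Function.Injective (σ : F →ₗ[K] F) := by
    rw [LinearMap.injective_iff_surjective]
    exact hσ
  exact ⟨h, hσ⟩

theorem RelFree.isBaseLike (hF : RelFree K n r F x) : IsBaseLike x := by
  obtain ⟨h, hh⟩ := hF.test
  constructor
  · intro i p q hi
    have h1 : (linL K r) (h (x i)) = 0 := by
      rw [hi, map_sum, map_sum]
      simp
    rw [hh] at h1
    have := congrFun h1 i
    simp at this
  · intro z
    obtain ⟨c, w, rfl⟩ := hF.exists_repr z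
    refine ⟨fun i => c i • x i, x, w, ?_, rfl⟩
    intro i
    rw [smul_mul_assoc, mul_smul_comm]

theorem RelFree.bijective_of_isBaseLike (hF : RelFree K n r F x) (hn : 1 ≤ n)
    {y : Fin r → F} (hy : IsBaseLike y) (σ : F →ₙₐ[K] F) (hσ : ∀ i, σ (x i) = y i) :
    Function.Bijective σ := by
  obtain ⟨h, hh⟩ := hF.test
  apply hF.bijective (by omega)
  have hsq : ∀ a b : F, a * b ∈ algPow K F 2 := fun a b =>
    mul_mem_algPow (i := 1) (j := 1) le_rfl le_rfl (by rw [algPow_one]; trivial)
      (by rw [algPow_one]; trivial)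
  -- elements with zero linear part are sums of products
  have hker : ∀ z : F, (h z).lin = 0 → ∃ w : Fin r → F, z = ∑ j, x j * w j := by
    intro z hz
    obtain ⟨c, w, rfl⟩ := hF.exists_repr z
    rw [test_lin_repr h hh] at hz
    refine ⟨w, ?_⟩
    simp [hz]
  have hker2 : ∀ z : F, (h z).lin = 0 → z ∈ algPow K F 2 := by
    intro z hz
    obtain ⟨w, rfl⟩ := hker z hz
    exact Submodule.sum_mem _ fun j _ => hsq _ _
  have hyl : ∀ i, (h (y i)).lin ≠ 0 := by
    intro i hi
    obtain ⟨w, hw⟩ := hker _ hi
    exact hy.1 i x w hw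
  have hall := top_of_sup_sq hF.nilp (by omega) (NonUnitalAlgHom.range σ) (by
    intro z
    obtain ⟨u, p, q, hu, rfl⟩ := hy.2 z
    have hui : ∀ i, ∃ c : K, u i - c • y i ∈ algPow K F 2 := by
      intro i
      obtain ⟨j, hj⟩ : ∃ j, (h (y i)).lin j ≠ 0 := by
        by_contra hcon
        push Not at hcon
        exact hyl i (funext hcon)
      refine ⟨(h (u i)).lin j / (h (y i)).lin j, hker2 _ ?_⟩
      have hcomm := congrArg TestAlg.quad (congrArg h (hu i))
      simp only [map_mul, mul_quad] at hcomm
      have h1 : (linL K r) (h (u i - ((h (u i)).lin j / (h (y i)).lin j) • y i)) = 0 := by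
        rw [map_sub, map_sub, map_smul, map_smul]
        ext k
        simp only [linL_apply, Pi.sub_apply, Pi.smul_apply, smul_eq_mul, Pi.zero_apply]
        have h2 := congrFun (congrFun hcomm k) j
        field_simp
        linear_combination h2
      exact h1
    choose c hc using hui
    refine ⟨∑ i, c i • y i, ?_, ∑ i, (u i - c i • y i) + ∑ j, p j * q j, ?_, ?_⟩
    · refine ⟨∑ i, c i • x i, ?_⟩
      change σ (∑ i, c i • x i) = _
      rw [map_sum]
      simp only [map_smul, hσ]
    · refine Submodule.add_mem _ (Submodule.sum_mem _ fun i _ => hc i) ?_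
      exact Submodule.sum_mem _ fun j _ => hsq _ _
    · rw [Finset.sum_sub_distrib]; abel)
  intro z
  exact hall z

theorem RelFree.homogeneous (hF : RelFree K n r F x) (hn : 1 ≤ n) :
    LogicallyHomogeneous K F := by
  intro m _ μ ν hμν
  choose t ht using fun i => hF.gen (μ i)
  let Φ : (algLang K).Formula (Fin m) :=
    Language.Formula.iExs (Fin r) ((baseF K r).relabel (Sum.inr : Fin r → Fin m ⊕ Fin r) ⊓
      Language.Formula.iInf (fun i : Fin m =>
        Language.Term.equal (vr K (Sum.inl i : Fin m ⊕ Fin r)) ((t i).relabel Sum.inr)))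
  have hΦ : ∀ z : Fin m → F, Φ.Realize z ↔
      ∃ y : Fin r → F, IsBaseLike y ∧ ∀ i, z i = (t i).realize y := by
    intro z
    rw [Language.Formula.realize_iExs]
    refine exists_congr fun y => ?_
    rw [Language.Formula.realize_inf, Language.Formula.realize_relabel, realize_baseF,
      Language.Formula.realize_iInf]
    refine and_congr Iff.rfl (forall_congr' fun i => ?_)
    rw [Language.Formula.realize_equal, Language.Term.realize_relabel]
    rfl
  have h1 : Φ.Realize μ := (hΦ μ).2 ⟨x, hF.isBaseLike, fun i => (ht i).symm⟩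
  obtain ⟨y, hy, hy'⟩ := (hΦ ν).1 ((hμν Φ).1 h1)
  obtain ⟨σ, hσ⟩ := hF.free y
  refine ⟨σ, hF.bijective_of_isBaseLike hn hy σ hσ, ?_⟩
  intro i
  rw [← ht i, hy' i, map_realize]
  congr 1
  funext j
  exact hσ j


end Pool.Agent.Y355.RF
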